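import Pool.Agent.Lib.ION.P2Fin

/-! Every eigenvalue `lam` of the atomic Hamiltonian on antisymmetric functions satisfies
`N ≤ Z + C (1 + (lam - E_N) ^ (3 / 7))`. -/

open MeasureTheory
open scoped ContDiff

noncomputable section

namespace Pool.Agent.Results.MP_6c3a95_mp.EigenvalueBound

/-- Configurations of `N` electrons in three-space. -/
abbrev Config (N : ℕ) : Type := Fin N → EuclideanSpace ℝ (Fin 3)

/-- The Coulomb potential of an atom with nuclear charge `Z`. -/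
def potential {N : ℕ} (Z : ℝ) (x : Config N) : ℝ :=
  -∑ i, Z / ‖x i‖ + ∑ i, ∑ j ∈ Finset.Ioi i, 1 / ‖x i - x j‖

/-- The unit vector for coordinate `a` of electron `i`. -/
def dir {N : ℕ} (i : Fin N) (a : Fin 3) : Config N := Pi.single i (EuclideanSpace.single a 1)

/-- Real test functions. -/
def IsTest {N : ℕ} (φ : Config N → ℝ) : Prop := ContDiff ℝ ∞ φ ∧ HasCompactSupport φ

/-- `Ψ` is in the Sobolev space `H¹` with weak gradient `G`. -/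
def IsH1 {N : ℕ} (Ψ : Config N → ℂ) (G : Fin N → Fin 3 → Config N → ℂ) : Prop :=
  MemLp Ψ 2 volume ∧ (∀ i a, MemLp (G i a) 2 volume) ∧
    ∀ i a φ, IsTest φ → ∫ x, Ψ x * (fderiv ℝ φ x (dir i a) : ℝ) = -∫ x, G i a x * (φ x : ℝ)

/-- `Ψ ∈ H¹` solves the eigenvalue equation in the form sense. -/
def IsWeakSolution {N : ℕ} (Z lam : ℝ) (Ψ : Config N → ℂ) : Prop :=
  ∃ G, IsH1 Ψ G ∧ ∀ φ, IsTest φ →
    ∫ x, (∑ i, ∑ a, G i a x * (fderiv ℝ φ x (dir i a) : ℝ) +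
      (potential Z x : ℝ) * Ψ x * (φ x : ℝ)) = lam * ∫ x, Ψ x * (φ x : ℝ)

/-- The ground state energy `E_N`: the infimum of the quadratic form over normalised
antisymmetric smooth functions with compact support. -/
def groundEnergy (Z : ℝ) (N : ℕ) : ℝ :=
  sInf {e | ∃ Φ : Config N → ℂ, ContDiff ℝ ∞ Φ ∧ HasCompactSupport Φ ∧
    (∀ i j, i ≠ j → ∀ x, Φ (x ∘ Equiv.swap i j) = -Φ x) ∧ ∫ x, ‖Φ x‖ ^ 2 = 1 ∧
    e = ∫ x, (∑ i, ∑ a, ‖fderiv ℝ Φ x (dir i a)‖ ^ 2 + potential Z x * ‖Φ x‖ ^ 2)}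

theorem result : ∃ C : ℝ, ∀ (Z : ℝ) (N : ℕ) (lam : ℝ) (Ψ : Config N → ℂ), 0 ≤ Z →
    IsWeakSolution Z lam Ψ → (∀ i j, i ≠ j → ∀ᵐ x : Config N, Ψ (x ∘ Equiv.swap i j) = -Ψ x) →
    ¬Ψ =ᵐ[volume] 0 →
    (N : ℝ) ≤ Z + C * (1 + max (lam - groundEnergy Z N) 0 ^ (3 / 7 : ℝ)) := by
  obtain ⟨C, -, h⟩ := Lib.ION.p2_cx Lib.ION.p2_core
  refine ⟨C, fun Z N lam Ψ hZ ⟨G, ⟨h1, h2, h3⟩, h4⟩ ha h0 => h N Z lam _ Ψ G hZ h1 h2
    (fun j a φ hφ => h3 j a φ ⟨hφ.1, hφ.2⟩) (fun φ hφ => h4 φ ⟨hφ.1, hφ.2⟩) ha h0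
    fun Φ hΦ hn => csInf_le ⟨-(N * Z ^ 2), ?_⟩ ⟨Φ, hΦ.sm.1, hΦ.sm.2,
      fun i j hij => hΦ.anti i (Finset.mem_univ _) j (Finset.mem_univ _) hij, hn,
      (Lib.ION.p2_En Z hΦ.sm).symm⟩⟩
  rintro e ⟨Θ, a1, a2, -, a4, rfl⟩
  have := Lib.ION.p2_bdd Z (Φ := Θ) ⟨a1, a2⟩
  rw [show Lib.ION.Nm Θ = 1 from a4, mul_one, ← Lib.ION.p2_En Z ⟨a1, a2⟩] at this
  exact this

end Pool.Agent.Results.MP_6c3a95_mp.EigenvalueBound
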