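import Pool.Agent.Lib.MP_6c3a95_mp.Main

/-! Absence of eigenvalues of the atomic Hamiltonian for `N ≥ 2Z + √(4Z + 1/2) + 3/4`. -/

open MeasureTheory
open scoped ContDiff

noncomputable section

namespace Pool.Agent.Results.MP_6c3a95_mp.NoEigenvalue

/-- Configurations of `N` electrons in three-space. -/
abbrev Config (N : ℕ) : Type := Fin N → EuclideanSpace ℝ (Fin 3)

/-- The Coulomb potential of an atom with nuclear charge `Z`. -/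
def potential {N : ℕ} (Z : ℝ) (x : Config N) : ℝ :=
  -∑ i, Z / ‖x i‖ + ∑ i, ∑ j ∈ Finset.Ioi i, 1 / ‖x i - x j‖

/-- Real test functions. -/
def IsTest {N : ℕ} (φ : Config N → ℝ) : Prop := ContDiff ℝ ∞ φ ∧ HasCompactSupport φ

/-- The derivative with respect to coordinate `a` of electron `i`. -/
def pd {N : ℕ} (φ : Config N → ℝ) (i : Fin N) (a : Fin 3) (x : Config N) : ℝ :=
  fderiv ℝ φ x (Pi.single i (EuclideanSpace.single a 1))

/-- `Ψ` is in the Sobolev space `H¹` with weak gradient `G`. -/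
def IsH1 {N : ℕ} (Ψ : Config N → ℂ) (G : Fin N → Fin 3 → Config N → ℂ) : Prop :=
  MemLp Ψ 2 volume ∧ (∀ i a, MemLp (G i a) 2 volume) ∧
    ∀ i a φ, IsTest φ → ∫ x, Ψ x * (pd φ i a x : ℝ) = -∫ x, G i a x * (φ x : ℝ)

/-- `Ψ ∈ H¹` solves the eigenvalue equation in the form sense. -/
def IsWeakSolution {N : ℕ} (Z lam : ℝ) (Ψ : Config N → ℂ) : Prop :=
  ∃ G, IsH1 Ψ G ∧ ∀ φ, IsTest φ →
    ∫ x, (∑ i, ∑ a, G i a x * (pd φ i a x : ℝ) + (potential Z x : ℝ) * Ψ x * (φ x : ℝ)) =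
      lam * ∫ x, Ψ x * (φ x : ℝ)

theorem result (Z : ℝ) (hZ : 0 ≤ Z) (N : ℕ) (hN : 2 * Z + √(4 * Z + 1 / 2) + 3 / 4 ≤ N)
    (lam : ℝ) (Ψ : Config N → ℂ) (h : IsWeakSolution Z lam Ψ) : Ψ =ᵐ[volume] 0 := by
  obtain ⟨G, ⟨h1, h2, h3⟩, h4⟩ := h
  refine Pool.Agent.Lib.MP_6c3a95_mp.complex_main (lam := lam) (G := fun α => G α.1 α.2) hZ hN h1
    (fun α => h2 α.1 α.2) (fun α φ hφ => h3 α.1 α.2 φ ⟨hφ.1, hφ.2⟩) fun φ hφ => ?_
  simp only [Fintype.sum_prod_type]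
  exact h4 φ ⟨hφ.1, hφ.2⟩

end Pool.Agent.Results.MP_6c3a95_mp.NoEigenvalue
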